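import Pool.Agent.Helper13.TR.StA

set_option autoImplicit false

namespace Pool.Agent.Helper75.TR

open Set Topology Pool.Agent.Helper13.TR

private theorem abd_single {n : ℕ} (k : ℕ) (v : Av n (k + 1)) :
    abd k (Finsupp.single v 1)
      = ∑ i : Fin (k + 2), ((-1 : ℤ) ^ (i : ℕ)) • Finsupp.single (v ∘ i.succAbove) (1 : ℤ) := by
  unfold abd
  rw [Finsupp.linearCombination_single, one_smul]

private theorem acone_single {n k : ℕ} (b : Dl n) (v : Av n k) :
    acone b (Finsupp.single v 1) = Finsupp.single (Fin.cons b v : Av n (k + 1)) (1 : ℤ) := by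
  unfold acone
  rw [Finsupp.lmapDomain_apply, Finsupp.mapDomain_single]

private theorem amap_single {n m : ℕ} (f : Dl n → Dl m) (k : ℕ) (v : Av n k) :
    amap f k (Finsupp.single v 1) = Finsupp.single (f ∘ v : Av m k) (1 : ℤ) := by
  unfold amap
  rw [Finsupp.lmapDomain_apply, Finsupp.mapDomain_single]

private theorem asd_succ_single {n : ℕ} (k : ℕ) (v : Av n (k + 1)) :
    asd (k + 1) (Finsupp.single v 1) = acone (bary v) (asd k (abd k (Finsupp.single v 1))) := by
  show (Finsupp.linearCombination ℤ fun v : Av n (k + 1) =>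
      acone (bary v) (asd k (abd k (Finsupp.single v 1)))) (Finsupp.single v 1) = _
  rw [Finsupp.linearCombination_single, one_smul]

private theorem asd_zero {n : ℕ} (c : AC n 0) : asd 0 c = c := rfl

private theorem ath_zero {n : ℕ} (c : AC n 0) : ath 0 c = 0 := rfl

private theorem ath_succ_single {n : ℕ} (k : ℕ) (v : Av n (k + 1)) :
    ath (k + 1) (Finsupp.single v 1)
      = acone (bary v) (Finsupp.single v 1 - ath k (abd k (Finsupp.single v 1))) := by
  show (Finsupp.linearCombination ℤ fun v : Av n (k + 1) =>
      acone (bary v) (Finsupp.single v 1 - ath k (abd k (Finsupp.single v 1)))) (Finsupp.single v 1) = _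
  rw [Finsupp.linearCombination_single, one_smul]

/-- two linear maps which agree on the simplices agree -/
private theorem lext {n k : ℕ} {M : Type} [AddCommGroup M] (f g : AC n k →ₗ[ℤ] M)
    (h : ∀ v : Av n k, f (Finsupp.single v 1) = g (Finsupp.single v 1)) (c : AC n k) : f c = g c := by
  have : f = g := by
    refine Finsupp.lhom_ext' fun v => ?_
    refine LinearMap.ext_ring ?_
    exact h v
  rw [this]

private theorem cons_succ_succAbove {n k : ℕ} (b : Dl n) (v : Av n (k + 1)) (i : Fin (k + 2)) :
    (Fin.cons b v : Av n (k + 2)) ∘ (i.succ).succAbove = Fin.cons b (v ∘ i.succAbove) := by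
  funext j
  refine Fin.cases ?_ (fun j => ?_) j
  · simp
  · simp [Fin.succ_succAbove_succ]

private theorem cone_pos {n : ℕ} (k : ℕ) (b : Dl n) (c : AC n (k + 1)) :
    abd (k + 1) (acone b c) = c - acone b (abd k c) := by
  have h := lext ((abd (k + 1)).comp (acone b)) (LinearMap.id - (acone b).comp (abd k)) ?_ c
  · simpa using h
  intro v
  show abd (k + 1) (acone b (Finsupp.single v 1))
    = Finsupp.single v 1 - acone b (abd k (Finsupp.single v 1))
  rw [acone_single, abd_single, abd_single, Fin.sum_univ_succ, map_sum]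
  have e0 : (Fin.cons b v : Av n (k + 2)) ∘ (0 : Fin (k + 3)).succAbove = v := by
    funext j
    simp
  rw [e0, sub_eq_add_neg, ← Finset.sum_neg_distrib]
  congr 1
  · simp
  · refine Finset.sum_congr rfl fun i _ => ?_
    rw [cons_succ_succAbove, map_smul, acone_single, Fin.val_succ, pow_succ, mul_neg_one, neg_smul]

private noncomputable def eps {n : ℕ} : AC n 0 →ₗ[ℤ] ℤ := Finsupp.linearCombination ℤ fun _ => (1 : ℤ)

private theorem eps_single {n : ℕ} (v : Av n 0) : eps (Finsupp.single v 1) = 1 := by
  unfold eps
  rw [Finsupp.linearCombination_single, one_smul]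

private theorem cone_zero {n : ℕ} (b : Dl n) (c : AC n 0) :
    abd 0 (acone b c) = c - eps c • Finsupp.single (fun _ => b) 1 := by
  have h := lext ((abd 0).comp (acone b))
    (LinearMap.id - (LinearMap.toSpanSingleton ℤ (AC n 0) (Finsupp.single (fun _ => b) 1)).comp eps) ?_ c
  · simpa using h
  intro v
  show abd 0 (acone b (Finsupp.single v 1))
    = Finsupp.single v 1 - eps (Finsupp.single v 1) • Finsupp.single (fun _ => b) 1
  rw [acone_single, abd_single, eps_single, one_smul, Fin.sum_univ_two]
  have e0 : (Fin.cons b v : Av n 1) ∘ (0 : Fin 2).succAbove = v := by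
    funext j
    simp
  have e1 : (Fin.cons b v : Av n 1) ∘ (1 : Fin 2).succAbove = fun _ => b := by
    funext j
    have hj : j = 0 := Subsingleton.elim _ _
    subst hj
    rfl
  rw [e0, e1]
  simp [sub_eq_add_neg]

private theorem eps_abd {n : ℕ} (c : AC n 1) : eps (abd 0 c) = 0 := by
  have h := lext (eps.comp (abd 0)) 0 ?_ c
  · simpa using h
  intro v
  show eps (abd 0 (Finsupp.single v 1)) = 0
  rw [abd_single, Fin.sum_univ_two, map_add, map_smul, map_smul, eps_single, eps_single]
  norm_num

private theorem single_eq_cone {n k : ℕ} (v : Av n (k + 1)) :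
    Finsupp.single v (1 : ℤ) = acone (v 0) (Finsupp.single (Fin.tail v) 1) := by
  rw [acone_single, Fin.cons_self_tail]

private theorem abd_abd {n : ℕ} (k : ℕ) (c : AC n (k + 2)) : abd k (abd (k + 1) c) = 0 := by
  induction k with
  | zero =>
    have h := lext ((abd 0).comp (abd 1)) 0 ?_ c
    · simpa using h
    intro v
    show abd 0 (abd 1 (Finsupp.single v 1)) = 0
    rw [single_eq_cone v, cone_pos, map_sub, cone_zero, eps_abd, zero_smul, sub_zero, sub_self]
  | succ k ih =>
    have h := lext ((abd (k + 1)).comp (abd (k + 2))) 0 ?_ c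
    · simpa using h
    intro v
    show abd (k + 1) (abd (k + 2) (Finsupp.single v 1)) = 0
    rw [single_eq_cone v, cone_pos, map_sub, cone_pos, ih, map_zero, sub_zero, sub_self]

private theorem abd_asd {n : ℕ} (k : ℕ) (c : AC n (k + 1)) : abd k (asd (k + 1) c) = asd k (abd k c) := by
  induction k with
  | zero =>
    have h := lext ((abd 0).comp (asd 1)) ((asd 0).comp (abd 0)) ?_ c
    · exact h
    intro v
    show abd 0 (asd 1 (Finsupp.single v 1)) = asd 0 (abd 0 (Finsupp.single v 1))
    rw [asd_succ_single, asd_zero, cone_zero, eps_abd, zero_smul, sub_zero]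
  | succ k ih =>
    have h := lext ((abd (k + 1)).comp (asd (k + 2))) ((asd (k + 1)).comp (abd (k + 1))) ?_ c
    · exact h
    intro v
    show abd (k + 1) (asd (k + 2) (Finsupp.single v 1)) = asd (k + 1) (abd (k + 1) (Finsupp.single v 1))
    rw [asd_succ_single, cone_pos, ih, abd_abd, map_zero, map_zero, sub_zero]

private theorem abd_ath {n : ℕ} (k : ℕ) (c : AC n (k + 1)) :
    abd (k + 1) (ath (k + 1) c) + ath k (abd k c) = c - asd (k + 1) c := by
  induction k with
  | zero =>
    have h := lext ((abd 1).comp (ath 1) + (ath 0).comp (abd 0)) (LinearMap.id - asd 1) ?_ c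
    · exact h
    intro v
    show abd 1 (ath 1 (Finsupp.single v 1)) + ath 0 (abd 0 (Finsupp.single v 1))
      = Finsupp.single v 1 - asd 1 (Finsupp.single v 1)
    rw [ath_succ_single, ath_zero, sub_zero, add_zero, cone_pos, asd_succ_single, asd_zero]
  | succ k ih =>
    have h := lext ((abd (k + 2)).comp (ath (k + 2)) + (ath (k + 1)).comp (abd (k + 1)))
      (LinearMap.id - asd (k + 2)) ?_ c
    · exact h
    intro v
    show abd (k + 2) (ath (k + 2) (Finsupp.single v 1)) + ath (k + 1) (abd (k + 1) (Finsupp.single v 1))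
      = Finsupp.single v 1 - asd (k + 2) (Finsupp.single v 1)
    have h1 := ih (abd (k + 1) (Finsupp.single v 1))
    rw [abd_abd, map_zero, add_zero] at h1
    rw [ath_succ_single, cone_pos, asd_succ_single, map_sub, h1, sub_sub_cancel]
    abel

private theorem amap_acone {n m k : ℕ} (f : Dl n → Dl m) (b : Dl n) (c : AC n k) :
    amap f (k + 1) (acone b c) = acone (f b) (amap f k c) := by
  have h := lext ((amap f (k + 1)).comp (acone b)) ((acone (f b)).comp (amap f k)) ?_ c
  · exact h
  intro v
  show amap f (k + 1) (acone b (Finsupp.single v 1)) = acone (f b) (amap f k (Finsupp.single v 1))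
  rw [acone_single, amap_single, amap_single, acone_single]
  congr 1
  funext j
  refine Fin.cases ?_ (fun j => ?_) j
  · simp
  · simp

private theorem amap_abd {n m k : ℕ} (f : Dl n → Dl m) (c : AC n (k + 1)) :
    amap f k (abd k c) = abd k (amap f (k + 1) c) := by
  have h := lext ((amap f k).comp (abd k)) ((abd k).comp (amap f (k + 1))) ?_ c
  · exact h
  intro v
  show amap f k (abd k (Finsupp.single v 1)) = abd k (amap f (k + 1) (Finsupp.single v 1))
  rw [abd_single, amap_single, abd_single, map_sum]
  refine Finset.sum_congr rfl fun i _ => ?_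
  rw [map_smul, amap_single]
  rfl

private theorem lin_bary (hLNA : StLNA) {n m k : ℕ} (u : Av m n) (v : Av n k) :
    lin u (bary v) = bary (lin u ∘ v : Av m k) := by
  have h := hLNA.2.2.1 n m k u v
  have h2 := congrArg (fun g : C(Dl k, Dl m) => g stdSimplex.barycenter) h
  exact h2

/-- MODULE ABD -/
theorem hABD (hLNA : StLNA) : StABD := by
  refine ⟨fun n k c => abd_abd k c, fun n k c => abd_asd k c, fun n k c => abd_ath k c, ?_, ?_⟩
  · intro n m k u
    induction k with
    | zero => intro c; rfl
    | succ k ih =>
      intro c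
      have h := lext ((amap (lin u) (k + 1)).comp (asd (k + 1))) ((asd (k + 1)).comp (amap (lin u) (k + 1)))
        ?_ c
      · exact h
      intro v
      show amap (lin u) (k + 1) (asd (k + 1) (Finsupp.single v 1))
        = asd (k + 1) (amap (lin u) (k + 1) (Finsupp.single v 1))
      rw [asd_succ_single, amap_acone, ih, amap_abd, amap_single, asd_succ_single, lin_bary hLNA]
  · intro n m k u
    induction k with
    | zero =>
      intro c
      show amap (lin u) 1 (0 : AC n 1) = 0
      exact map_zero _
    | succ k ih =>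
      intro c
      have h := lext ((amap (lin u) (k + 2)).comp (ath (k + 1))) ((ath (k + 1)).comp (amap (lin u) (k + 1)))
        ?_ c
      · exact h
      intro v
      show amap (lin u) (k + 2) (ath (k + 1) (Finsupp.single v 1))
        = ath (k + 1) (amap (lin u) (k + 1) (Finsupp.single v 1))
      rw [ath_succ_single, amap_acone, map_sub, ih, amap_abd, amap_single, ath_succ_single, lin_bary hLNA]

end Pool.Agent.Helper75.TR
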